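import Pool.Agent.FRE.Stmts

/-! Row ENR of squad FRE (MP_1fc801_co): sets with large additive energy. -/

set_option autoImplicit false

namespace Pool.Agent.FRE.H50

open Pool.Agent.FRE

/-- the number of the distances is monotone -/
theorem nd_mono {P Q : Finset ℂ} (h : P ⊆ Q) : nd P ≤ nd Q := by
  classical
  unfold nd
  apply Finset.card_le_card
  apply Finset.image_subset_image
  exact Finset.offDiag_mono h

open Classical in
theorem cnt_mono {P Q : Finset ℂ} (h : P ⊆ Q) (z₀ e : ℂ) :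
    (P.filter fun p => ∃ t : ℝ, p = z₀ + t * e).card ≤
      (Q.filter fun p => ∃ t : ℝ, p = z₀ + t * e).card :=
  Finset.card_le_card (Finset.filter_subset_filter _ h)

/-- ROW ENR -/
theorem enr (hgpl : GplStmt) (hfre : FreStmt) (hbsg : BsgStmt) : EnrStmt := by
  classical
  intro K
  obtain ⟨K', hK', hB⟩ := hbsg K
  obtain ⟨d, C, hC, hF⟩ := hfre K'
  obtain ⟨ε₁, c₁, A₁, hε₁, hc₁, hA₁, n₁, hG⟩ := hgpl d C hC
  have hsK : 0 < Real.sqrt K' := Real.sqrt_pos.mpr hK'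
  refine ⟨ε₁ / K', c₁ / Real.sqrt K', A₁, div_pos hε₁ hK', div_pos hc₁ hsK, hA₁,
    ⌈K' * n₁⌉₊ + 3, ?_⟩
  intro P hP hE hnd
  have hPc : (0 : ℝ) < P.card := by
    have : 0 < P.card := by omega
    exact_mod_cast this
  have hPne : P.Nonempty := by
    rw [← Finset.card_pos]
    omega
  obtain ⟨P', hsub, hcard, hsms⟩ := hB P hPne hE
  have hP'c : (0 : ℝ) < P'.card := by
    by_contra hcon
    push Not at hcon
    have : K' * (P'.card : ℝ) ≤ 0 := mul_nonpos_of_nonneg_of_nonpos hK'.le hcon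
    linarith
  have hP'ne : P'.Nonempty := by
    rw [← Finset.card_pos]
    exact_mod_cast hP'c
  have hn₁ : n₁ ≤ P'.card := by
    have h1 : K' * n₁ ≤ (P.card : ℝ) := by
      have h2 : K' * n₁ ≤ (⌈K' * n₁⌉₊ : ℝ) := Nat.le_ceil _
      have h3 : (⌈K' * n₁⌉₊ : ℝ) ≤ (P.card : ℝ) := by
        have : ⌈K' * n₁⌉₊ ≤ P.card := by omega
        exact_mod_cast this
      linarith
    have h4 : K' * (n₁ : ℝ) ≤ K' * (P'.card : ℝ) := h1.trans hcard
    have h5 : (n₁ : ℝ) ≤ (P'.card : ℝ) := le_of_mul_le_mul_left h4 hK'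
    exact_mod_cast h5
  obtain ⟨g, N, hg, hN⟩ := hF P' hP'ne hsms
  have hg' : ∀ z ∈ P', ∃ x : Fin d → ℤ, (∀ i, |x i| ≤ (N i : ℤ)) ∧ z = ∑ i, (x i : ℂ) * g i := by
    intro z hz
    obtain ⟨x, hx, hzx⟩ := hg z hz
    refine ⟨x, hx, ?_⟩
    rw [hzx]
    refine Finset.sum_congr rfl fun i _ => ?_
    rw [zsmul_eq_mul]
  have hnd' : (nd P' : ℝ) ≤ ε₁ * P'.card := by
    have h1 : (nd P' : ℝ) ≤ (nd P : ℝ) := by exact_mod_cast nd_mono hsub
    have h2 : ε₁ / K' * P.card ≤ ε₁ / K' * (K' * P'.card) :=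
      mul_le_mul_of_nonneg_left hcard (div_pos hε₁ hK').le
    have h3 : ε₁ / K' * (K' * P'.card) = ε₁ * P'.card := by
      field_simp
    linarith
  obtain ⟨z₀, e, he, hline⟩ := hG g N P' hg' hn₁ hN hnd'
  refine ⟨z₀, e, he, ?_⟩
  have hcnt : (((P'.filter fun p => ∃ t : ℝ, p = z₀ + t * e).card : ℕ) : ℝ) ≤
      (((P.filter fun p => ∃ t : ℝ, p = z₀ + t * e).card : ℕ) : ℝ) := by
    exact_mod_cast cnt_mono hsub z₀ e
  have h1P' : (1 : ℝ) ≤ P'.card := by
    have : 1 ≤ P'.card := Finset.card_pos.mpr hP'ne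
    exact_mod_cast this
  have hle : (P'.card : ℝ) ≤ P.card := by
    exact_mod_cast Finset.card_le_card hsub
  have hlog0 : 0 ≤ Real.log P'.card := Real.log_nonneg h1P'
  have hlog : Real.log P'.card ≤ Real.log P.card := Real.log_le_log hP'c hle
  have hpow : Real.log P'.card ^ A₁ ≤ Real.log P.card ^ A₁ :=
    Real.rpow_le_rpow hlog0 hlog hA₁.le
  have hpow0 : 0 ≤ Real.log P'.card ^ A₁ := Real.rpow_nonneg hlog0 _
  have hsq : Real.sqrt P.card ≤ Real.sqrt K' * Real.sqrt P'.card := by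
    rw [← Real.sqrt_mul hK'.le]
    exact Real.sqrt_le_sqrt hcard
  have hfirst : c₁ / Real.sqrt K' * Real.sqrt P.card ≤ c₁ * Real.sqrt P'.card := by
    have h2 : c₁ / Real.sqrt K' * Real.sqrt P.card ≤
        c₁ / Real.sqrt K' * (Real.sqrt K' * Real.sqrt P'.card) :=
      mul_le_mul_of_nonneg_left hsq (div_pos hc₁ hsK).le
    have h3 : c₁ / Real.sqrt K' * (Real.sqrt K' * Real.sqrt P'.card) = c₁ * Real.sqrt P'.card := by
      field_simp
    linarith
  calc c₁ / Real.sqrt K' * Real.sqrt P.card ≤ c₁ * Real.sqrt P'.card := hfirst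
    _ ≤ Real.log P'.card ^ A₁ *
        (((P'.filter fun p => ∃ t : ℝ, p = z₀ + t * e).card : ℕ) : ℝ) := hline
    _ ≤ Real.log P.card ^ A₁ *
        (((P.filter fun p => ∃ t : ℝ, p = z₀ + t * e).card : ℕ) : ℝ) :=
      mul_le_mul hpow hcnt (by positivity) (hpow0.trans hpow)

end Pool.Agent.FRE.H50
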